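import Mathlib

set_option autoImplicit false

open Finset

namespace Run7.h523.MZ

/-- A quadratic form which is nonnegative on the hyperplane orthogonal to a positive vector without
dominating entry has nonnegative trace. -/
theorem trace_nonneg {P : Type*} [DecidableEq P] (S : Finset P) (n τ : P → ℝ)
    (hn : ∀ a ∈ S, 0 < n a) (hbal : ∀ a ∈ S, 2 * n a ≤ ∑ b ∈ S, n b)
    (h : ∀ x : P → ℝ, ∑ a ∈ S, n a * x a = 0 → 0 ≤ ∑ a ∈ S, τ a * x a ^ 2) :
    0 ≤ ∑ a ∈ S, τ a := by
  by_cases hall : ∀ a ∈ S, 0 ≤ τ a
  · exact Finset.sum_nonneg hall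
  push Not at hall
  obtain ⟨o, ho, hτo⟩ := hall
  have hno := hn o ho
  have hpos : ∀ a ∈ S.erase o, 0 < τ a := by
    intro a ha
    have hao : a ≠ o := Finset.ne_of_mem_erase ha
    have haS := Finset.mem_of_mem_erase ha
    have hna := hn a haS
    have h1 := h (fun b => if b = o then n a else if b = a then - n o else 0) ?_
    · rw [← Finset.add_sum_erase S _ ho, ← Finset.add_sum_erase (S.erase o) _ ha] at h1
      rw [Finset.sum_eq_zero (s := (S.erase o).erase a)] at h1
      · simp only [if_true, if_neg hao] at h1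
        have h2 : 0 < -(τ o) * n a ^ 2 := by
          have : 0 < - τ o := by linarith
          positivity
        have h3 : 0 < τ a * n o ^ 2 := by nlinarith
        by_contra hneg
        have := mul_nonpos_of_nonpos_of_nonneg (not_lt.1 hneg) (sq_nonneg (n o))
        linarith
      · intro b hb
        have hba : b ≠ a := Finset.ne_of_mem_erase hb
        have hbo : b ≠ o := Finset.ne_of_mem_erase (Finset.mem_of_mem_erase hb)
        simp [hba, hbo]
    · rw [← Finset.add_sum_erase S _ ho, ← Finset.add_sum_erase (S.erase o) _ ha]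
      rw [Finset.sum_eq_zero (s := (S.erase o).erase a)]
      · simp only [if_true, if_neg hao]; ring
      · intro b hb
        have hba : b ≠ a := Finset.ne_of_mem_erase hb
        have hbo : b ≠ o := Finset.ne_of_mem_erase (Finset.mem_of_mem_erase hb)
        simp [hba, hbo]
  set X : ℝ := ∑ a ∈ S.erase o, n a ^ 2 / τ a with hX
  have hne : n o ≤ ∑ a ∈ S.erase o, n a := by
    have := hbal o ho
    rw [← Finset.add_sum_erase S _ ho] at this
    linarith
  have hnon : (S.erase o).Nonempty := by
    rw [Finset.nonempty_iff_ne_empty]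
    intro h0
    rw [h0] at hne
    simp at hne
    linarith
  have hX0 : 0 < X := Finset.sum_pos (fun a ha => by
    have := hpos a ha
    have := hn a (Finset.mem_of_mem_erase ha)
    positivity) hnon
  have h1 := h (fun b => if b = o then - X / n o else n b / τ b) ?_
  · rw [← Finset.add_sum_erase S _ ho] at h1
    have h2 : ∑ a ∈ S.erase o, τ a * (if a = o then - X / n o else n a / τ a) ^ 2 = X := by
      rw [hX]
      refine Finset.sum_congr rfl fun a ha => ?_
      rw [if_neg (Finset.ne_of_mem_erase ha)]
      have := (hpos a ha).ne'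
      field_simp
    rw [h2, if_pos rfl] at h1
    -- τ o * X^2 / n o^2 + X ≥ 0
    have h3 : -(τ o) * X ≤ n o ^ 2 := by
      have h4 : 0 ≤ τ o * (-X / n o) ^ 2 + X := h1
      have h5 : τ o * (-X / n o) ^ 2 + X = (τ o * X + n o ^ 2) * (X / n o ^ 2) := by
        field_simp
      rw [h5] at h4
      have h6 : 0 < X / n o ^ 2 := by positivity
      have h7 := nonneg_of_mul_nonneg_left h4 h6
      linarith
    have h4 : (∑ a ∈ S.erase o, n a) ^ 2 ≤ X * ∑ a ∈ S.erase o, τ a := by
      have hτs : 0 < ∑ a ∈ S.erase o, τ a := Finset.sum_pos hpos hnon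
      have := Finset.sq_sum_div_le_sum_sq_div (S.erase o) n hpos
      rw [div_le_iff₀ hτs] at this
      exact this
    have h5 : n o ^ 2 ≤ (∑ a ∈ S.erase o, n a) ^ 2 := by
      apply pow_le_pow_left₀ hno.le hne
    have h6 : -(τ o) * X ≤ X * ∑ a ∈ S.erase o, τ a := by linarith
    have h7 : -(τ o) ≤ ∑ a ∈ S.erase o, τ a := by
      have : X * (-(τ o)) ≤ X * ∑ a ∈ S.erase o, τ a := by linarith
      exact le_of_mul_le_mul_left this hX0
    rw [← Finset.add_sum_erase S _ ho]
    linarith
  · rw [← Finset.add_sum_erase S _ ho]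
    have h2 : ∑ a ∈ S.erase o, n a * (if a = o then - X / n o else n a / τ a) = X := by
      rw [hX]
      refine Finset.sum_congr rfl fun a ha => ?_
      rw [if_neg (Finset.ne_of_mem_erase ha)]
      ring
    rw [h2, if_pos rfl]
    field_simp
    ring

end Run7.h523.MZ
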