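import Mathlib
import Pool.Agent.Y734.R.Stms5

/-!
# Real similarities are positive semidefinite (after Pool.Agent.Y734.R.P1)
-/

set_option autoImplicit false

namespace Run7.h523.MZ

open Pool.Agent.Y734.R

/-- The matrix of a symmetric transitive relation is positive semidefinite. -/
lemma rel_nonneg {m : ℕ} (R : Fin m → Fin m → Prop) [DecidableRel R]
    (hs : ∀ i j, R i j → R j i) (ht : ∀ i j l, R i j → R j l → R i l) (z : Fin m → ℝ) :
    0 ≤ ∑ i, ∑ j, if R i j then z i * z j else 0 := by
  classical
  let cls : Fin m → Finset (Fin m) := fun i => Finset.univ.filter (R i)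
  have h1 : ∀ i, (∑ j, if R i j then z i * z j else 0) = z i * ∑ j ∈ cls i, z j := by
    intro i
    rw [Finset.mul_sum, Finset.sum_filter]
  simp only [h1]
  rw [← Finset.sum_fiberwise_of_maps_to (s := Finset.univ) (t := Finset.univ.image cls) (g := cls)
    (fun i _ => Finset.mem_image_of_mem _ (Finset.mem_univ i))]
  refine Finset.sum_nonneg fun c hc => ?_
  obtain ⟨i0, -, rfl⟩ := Finset.mem_image.1 hc
  have h2 : ∑ i ∈ Finset.univ.filter (fun i => cls i = cls i0), z i * ∑ j ∈ cls i, z j =
      (∑ i ∈ Finset.univ.filter (fun i => cls i = cls i0), z i) * ∑ j ∈ cls i0, z j := by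
    rw [Finset.sum_mul]
    refine Finset.sum_congr rfl fun i hi => ?_
    rw [(Finset.mem_filter.1 hi).2]
  rw [h2]
  by_cases hR : R i0 i0
  · have h3 : Finset.univ.filter (fun i => cls i = cls i0) = cls i0 := by
      ext i
      simp only [Finset.mem_filter, Finset.mem_univ, true_and, cls]
      constructor
      · intro h
        have h4 : i0 ∈ Finset.univ.filter (R i) := by
          rw [h]
          simpa using hR
        exact hs _ _ (by simpa using h4)
      · intro h
        ext j
        simp only [Finset.mem_filter, Finset.mem_univ, true_and]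
        exact ⟨fun h' => ht _ _ _ h h', fun h' => ht _ _ _ (hs _ _ h) h'⟩
    rw [h3]
    exact mul_self_nonneg _
  · have h3 : cls i0 = ∅ := by
      ext j
      simp only [cls, Finset.mem_filter, Finset.mem_univ, true_and, Finset.notMem_empty, iff_false]
      intro h
      exact hR (ht _ _ _ h (hs _ _ h))
    rw [h3]
    simp

theorem psd_real (m : ℕ) (A : Fin m → Fin m → ℝ) (hA : Sim A) (z : Fin m → ℝ) :
    0 ≤ ∑ i, ∑ j, z i * z j * A i j := by
  classical
  obtain ⟨N, hN⟩ : ∃ N, N =
    (Finset.univ.filter (fun p : Fin m × Fin m => 0 < A p.1 p.2)).card := ⟨_, rfl⟩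
  induction N using Nat.strong_induction_on generalizing A with
  | _ N ih =>
    by_cases hz : ∀ i j, A i j = 0
    · simp [hz]
    · push Not at hz
      obtain ⟨a₀, b₀, hab₀⟩ := hz
      have hpos : (Finset.univ.filter (fun p : Fin m × Fin m => 0 < A p.1 p.2)).Nonempty :=
        ⟨(a₀, b₀), by simpa using lt_of_le_of_ne (hA.1 a₀ b₀) (Ne.symm hab₀)⟩
      obtain ⟨⟨a, b⟩, hab, hmin⟩ :=
        Finset.exists_min_image _ (fun p : Fin m × Fin m => A p.1 p.2) hpos
      have hg : 0 < A a b := by simpa using hab
      have hmin' : ∀ i j, 0 < A i j → A a b ≤ A i j := fun i j h => hmin (i, j) (by simpa using h)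
      obtain ⟨g, hgdef⟩ : ∃ g, g = A a b := ⟨_, rfl⟩
      rw [← hgdef] at hg
      simp only [← hgdef] at hmin'
      have hmono : ∀ x y : ℝ, x ≤ y → max (x - g) 0 ≤ max (y - g) 0 := fun x y h =>
        max_le_max (sub_le_sub_right h g) le_rfl
      have hzero : ∀ i j, ¬ 0 < A i j → A i j = 0 := fun i j h =>
        le_antisymm (not_lt.1 h) (hA.1 i j)
      have hA' : Sim (fun i j => max (A i j - g) 0) := by
        refine ⟨fun i j => le_max_right _ _, fun i j => ?_, fun i j l => ?_, fun i j => ?_⟩
        · show max (A i j - g) 0 = max (A j i - g) 0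
          rw [hA.2.1 i j]
        · show min (max (A i j - g) 0) (max (A j l - g) 0) ≤ max (A i l - g) 0
          rcases min_le_iff.1 (hA.2.2.1 i j l) with h | h
          · exact (min_le_left _ _).trans (hmono _ _ h)
          · exact (min_le_right _ _).trans (hmono _ _ h)
        · exact hmono _ _ (hA.2.2.2 i j)
      have hlt : (Finset.univ.filter (fun p : Fin m × Fin m =>
          0 < max (A p.1 p.2 - g) 0)).card < N := by
        rw [hN]
        refine Finset.card_lt_card ?_
        rw [Finset.ssubset_iff_of_subset]
        · refine ⟨(a, b), hab, ?_⟩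
          simp [← hgdef]
        · intro p hp
          simp only [Finset.mem_filter, Finset.mem_univ, true_and, lt_max_iff, sub_pos,
            lt_irrefl, or_false] at hp ⊢
          exact hg.trans hp
      have h1 := ih _ hlt (fun i j => max (A i j - g) 0) hA' rfl
      have h2 := rel_nonneg (fun i j => 0 < A i j)
        (fun i j h => by
          show 0 < A j i
          rw [hA.2.1 j i]
          exact h)
        (fun i j l h h' => lt_of_lt_of_le (lt_min h h') (hA.2.2.1 i j l)) z
      have h3 : ∑ i, ∑ j, z i * z j * A i j =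
          ∑ i, ∑ j, z i * z j * max (A i j - g) 0 +
            (∑ i, ∑ j, if 0 < A i j then z i * z j else 0) * g := by
        simp only [Finset.sum_mul, ← Finset.sum_add_distrib]
        refine Finset.sum_congr rfl fun i _ => Finset.sum_congr rfl fun j _ => ?_
        by_cases h : 0 < A i j
        · rw [if_pos h, max_eq_left (sub_nonneg.2 (hmin' i j h))]; ring
        · rw [if_neg h, hzero i j h, zero_sub, 
            max_eq_right (neg_nonpos.2 hg.le)]; ring
      rw [h3]
      exact add_nonneg h1 (mul_nonneg h2 hg.le)

end Run7.h523.MZ
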