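import Mathlib
import Pool.Agent.Run7.h523.MZ.Psd
import Pool.Agent.Run7.h523.MZ.Alg

set_option autoImplicit false

open Finset Pool.Agent.Y734.R

namespace Run7.h523.MZ

open Classical in
/-- the class of `i` -/
noncomputable def cl {m : ℕ} (B : Fin m → Fin m → ℝ) (i : Fin m) : Finset (Fin m) :=
  univ.filter fun j => 0 < B i j ∨ j = i

theorem mem_cl {m : ℕ} {B : Fin m → Fin m → ℝ} {i j : Fin m} :
    j ∈ cl B i ↔ 0 < B i j ∨ j = i := by
  classical
  simp [cl]

theorem cl_eq {m : ℕ} {B : Fin m → Fin m → ℝ} (hB : Sim B) {i j : Fin m} (h : j ∈ cl B i) :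
    cl B j = cl B i := by
  rcases mem_cl.1 h with h1 | h1
  · ext k
    rw [mem_cl, mem_cl]
    constructor
    · rintro (h2 | rfl)
      · exact Or.inl (lt_of_lt_of_le (lt_min h1 h2) (hB.2.2.1 i j k))
      · exact Or.inl h1
    · have h3 : 0 < B j i := by rw [hB.2.1]; exact h1
      rintro (h2 | rfl)
      · exact Or.inl (lt_of_lt_of_le (lt_min h3 h2) (hB.2.2.1 j i k))
      · exact Or.inl h3
  · rw [h1]

/-- The inequality for a similarity all of whose classes are small. -/
theorem light {m : ℕ} {B : Fin m → Fin m → ℝ} (hB : Sim B) (D : Fin m → ℝ)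
    (hcl : ∀ i, 2 * (cl B i).card ≤ m)
    (hD : ∀ c : Fin m → ℝ, ∑ i, c i = 0 → ∑ i, ∑ j, c i * c j * B i j ≤ ∑ i, D i * c i ^ 2) :
    ∑ i, ∑ j, B i j ≤ ∑ i, D i := by
  classical
  set S : Finset (Finset (Fin m)) := univ.image (cl B) with hS
  have hmaps : ∀ i ∈ (univ : Finset (Fin m)), cl B i ∈ S := fun i hi => mem_image_of_mem _ hi
  have hfib : ∀ C ∈ S, univ.filter (fun i => cl B i = C) = C := by
    intro C hC
    obtain ⟨i0, -, rfl⟩ := mem_image.1 hC
    ext i
    simp only [mem_filter, mem_univ, true_and]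
    constructor
    · intro h
      rw [← h, mem_cl]
      exact Or.inr rfl
    · intro h
      exact cl_eq hB h
  set g : Fin m → ℝ := fun i => D i - ∑ j, B i j with hg
  have key := trace_nonneg S (fun C => (C.card : ℝ))
    (fun C => ∑ i ∈ univ.filter (fun i => cl B i = C), g i) ?_ ?_ ?_
  · rw [sum_fiberwise_of_maps_to hmaps] at key
    simp only [hg, sum_sub_distrib] at key
    linarith
  · intro C hC
    obtain ⟨i0, -, rfl⟩ := mem_image.1 hC
    have : i0 ∈ cl B i0 := mem_cl.2 (Or.inr rfl)
    exact_mod_cast card_pos.2 ⟨i0, this⟩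
  · intro C hC
    have h1 : ∑ C ∈ S, (C.card : ℝ) = m := by
      have h2 : ∀ C ∈ S, (C.card : ℝ) = ∑ i ∈ univ.filter (fun i => cl B i = C), (1 : ℝ) := by
        intro C hC
        rw [hfib C hC]
        simp
      rw [sum_congr rfl h2, sum_fiberwise_of_maps_to hmaps]
      simp
    rw [h1]
    obtain ⟨i0, -, rfl⟩ := mem_image.1 hC
    exact_mod_cast hcl i0
  · intro x hx
    set c : Fin m → ℝ := fun i => x (cl B i) with hc
    have h1 : ∑ i, c i = 0 := by
      rw [← sum_fiberwise_of_maps_to hmaps, ← hx]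
      refine sum_congr rfl fun C hC => ?_
      have h2 : ∀ i ∈ univ.filter (fun i => cl B i = C), c i = x C := by
        intro i hi
        simp only [mem_filter, mem_univ, true_and] at hi
        simp only [hc, hi]
      rw [sum_congr rfl h2, hfib C hC, sum_const, nsmul_eq_mul]
    have h2 := hD c h1
    have h3 : ∑ i, ∑ j, c i * c j * B i j = ∑ i, c i ^ 2 * ∑ j, B i j := by
      refine sum_congr rfl fun i _ => ?_
      rw [mul_sum]
      refine sum_congr rfl fun j _ => ?_
      by_cases hij : 0 < B i j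
      · have h4 : cl B j = cl B i := cl_eq hB (mem_cl.2 (Or.inl hij))
        simp only [hc, h4]
        ring
      · have h5 : B i j = 0 := le_antisymm (not_lt.1 hij) (hB.1 i j)
        rw [h5]; ring
    have h4 : ∑ C ∈ S, (∑ i ∈ univ.filter (fun i => cl B i = C), g i) * x C ^ 2 =
        ∑ i, g i * c i ^ 2 := by
      rw [← sum_fiberwise_of_maps_to hmaps (f := fun i => g i * c i ^ 2)]
      refine sum_congr rfl fun C hC => ?_
      rw [sum_mul]
      refine sum_congr rfl fun i hi => ?_
      simp only [mem_filter, mem_univ, true_and] at hi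
      simp only [hc, hi]
    rw [h4]
    have h5 : ∑ i, g i * c i ^ 2 = ∑ i, D i * c i ^ 2 - ∑ i, c i ^ 2 * ∑ j, B i j := by
      rw [← sum_sub_distrib]
      refine sum_congr rfl fun i _ => ?_
      simp only [hg]; ring
    rw [h5]
    linarith

end Run7.h523.MZ
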