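import Mathlib
import Pool.Agent.Y734.R.Stms5

set_option autoImplicit false

open Finset Pool.Agent.Y734.R

namespace Run7.h523.MZ

/-- Off the diagonal, `A` is a symmetric similarity. -/
def OffSim {m : ℕ} (A : Fin m → Fin m → ℝ) : Prop :=
  (∀ i j, A i j = A j i) ∧
    ∀ i j l, i ≠ j → j ≠ l → i ≠ l → min (A i j) (A j l) ≤ A i l

open Classical in
/-- the points at similarity at least `t` to `i` -/
noncomputable def Cs {m : ℕ} (A : Fin m → Fin m → ℝ) (i : Fin m) (t : ℝ) : Finset (Fin m) :=
  univ.filter fun j => j = i ∨ t ≤ A i j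

theorem mem_Cs {m : ℕ} {A : Fin m → Fin m → ℝ} {i j : Fin m} {t : ℝ} :
    j ∈ Cs A i t ↔ j = i ∨ t ≤ A i j := by
  classical
  simp [Cs]

theorem self_mem_Cs {m : ℕ} {A : Fin m → Fin m → ℝ} {i : Fin m} {t : ℝ} : i ∈ Cs A i t :=
  mem_Cs.2 (Or.inl rfl)

/-- the class is heavy -/
def Heavy {m : ℕ} (A : Fin m → Fin m → ℝ) (i : Fin m) (t : ℝ) : Prop := m < 2 * (Cs A i t).card

theorem exists_other {m : ℕ} (hm : 2 ≤ m) (i : Fin m) : ∃ j, j ≠ i := by
  by_contra h
  push Not at h
  have h1 : (univ : Finset (Fin m)) ⊆ {i} := fun j _ => by simp [h j]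
  have := card_le_card h1
  simp at this
  omega

theorem exists_u {m : ℕ} (hm : 2 ≤ m) (A : Fin m → Fin m → ℝ) (i : Fin m) :
    ∃ u : ℝ, Heavy A i u ∧ ∀ t, Heavy A i t → t ≤ u := by
  classical
  set V : Finset (Fin m) := univ.filter fun j => j ≠ i ∧ Heavy A i (A i j) with hV
  have hne : V.Nonempty := by
    obtain ⟨j1, hj1⟩ := exists_other hm i
    obtain ⟨j0, hj0, hmin⟩ := exists_min_image (univ.filter fun j => j ≠ i) (fun j => A i j)
      ⟨j1, by simpa using hj1⟩
    refine ⟨j0, ?_⟩
    rw [hV, mem_filter]
    refine ⟨mem_univ _, by simpa using hj0, ?_⟩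
    have h1 : Cs A i (A i j0) = univ := by
      ext j
      simp only [mem_Cs, mem_univ, iff_true]
      by_cases hj : j = i
      · exact Or.inl hj
      · exact Or.inr (hmin j (by simpa using hj))
    unfold Heavy
    rw [h1, card_univ, Fintype.card_fin]
    omega
  obtain ⟨j0, hj0, hmax⟩ := exists_max_image V (fun j => A i j) hne
  rw [hV, mem_filter] at hj0
  refine ⟨A i j0, hj0.2.2, fun t ht => ?_⟩
  have hne2 : ((Cs A i t).erase i).Nonempty := by
    rw [← card_pos, card_erase_of_mem self_mem_Cs]
    unfold Heavy at ht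
    omega
  obtain ⟨j2, hj2, hmin⟩ := exists_min_image _ (fun j => A i j) hne2
  have hj2i : j2 ≠ i := ne_of_mem_erase hj2
  have hj2t : t ≤ A i j2 := by
    rcases mem_Cs.1 (mem_of_mem_erase hj2) with h | h
    · exact absurd h hj2i
    · exact h
  have hsub : Cs A i t ⊆ Cs A i (A i j2) := by
    intro j hj
    rw [mem_Cs]
    by_cases hji : j = i
    · exact Or.inl hji
    · exact Or.inr (hmin j (mem_erase.2 ⟨hji, hj⟩))
  have hh : Heavy A i (A i j2) := by
    unfold Heavy at ht ⊢
    have := card_le_card hsub
    omega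
  have : A i j2 ≤ A i j0 := hmax j2 (by rw [hV, mem_filter]; exact ⟨mem_univ _, hj2i, hh⟩)
  linarith

theorem Cs_subset {m : ℕ} {A : Fin m → Fin m → ℝ} (hA : OffSim A) {i j : Fin m} {t : ℝ}
    (hij : j ∈ Cs A i t) : Cs A i t ⊆ Cs A j t := by
  by_cases hji : j = i
  · rw [hji]
  have h1 : t ≤ A i j := by
    rcases mem_Cs.1 hij with h | h
    · exact absurd h hji
    · exact h
  intro k hk
  rw [mem_Cs]
  by_cases hkj : k = j
  · exact Or.inl hkj
  right
  by_cases hki : k = i
  · rw [hki, hA.1]; exact h1
  have h2 : t ≤ A i k := by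
    rcases mem_Cs.1 hk with h | h
    · exact absurd h hki
    · exact h
  have h3 := hA.2 j i k hji (Ne.symm hki) (Ne.symm hkj)
  refine le_trans (le_min ?_ h2) h3
  rw [hA.1]; exact h1

/-- Everything about the median of a tree. -/
theorem median {m : ℕ} (hm : 2 ≤ m) (A : Fin m → Fin m → ℝ) (hA : OffSim A) :
    ∃ (u : Fin m → ℝ) (η : ℝ) (B : Fin m → Fin m → ℝ), (∀ i, u i ≤ η) ∧
      (∀ i j, i ≠ j → B i j = A i j - u i - u j + η) ∧
      (∀ i j, i ≠ j → η - max (u i) (u j) ≤ B i j) ∧ Sim B ∧
      (∀ i, ∃ j, j ≠ i ∧ B i i = B i j) ∧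
      ∀ (i : Fin m) (T : Finset (Fin m)), (∀ j ∈ T, 0 < B i j ∨ j = i) → 2 * T.card ≤ m := by
  classical
  choose u hu1 hu2 using exists_u hm A
  have : Nonempty (Fin m) := ⟨⟨0, by omega⟩⟩
  obtain ⟨i0, -, hi0⟩ := exists_max_image (univ : Finset (Fin m)) u univ_nonempty
  set η := u i0 with hη
  have huη : ∀ i, u i ≤ η := fun i => hi0 i (mem_univ i)
  -- F3
  have F3 : ∀ i j, i ≠ j → min (u i) (u j) ≤ A i j := by
    intro i j hij
    set t := min (u i) (u j) with ht
    have hsub : ∀ k, Cs A k (u k) ⊆ Cs A k (min (u k) t) := by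
      intro k l hl
      rw [mem_Cs] at hl ⊢
      rcases hl with h | h
      · exact Or.inl h
      · exact Or.inr ((min_le_left _ _).trans h)
    have h1 : Cs A i (u i) ⊆ Cs A i t := by
      have := hsub i
      rwa [min_eq_right (min_le_left _ _)] at this
    have h2 : Cs A j (u j) ⊆ Cs A j t := by
      have := hsub j
      rwa [min_eq_right (min_le_right _ _)] at this
    have hcard : (Cs A i t ∩ Cs A j t).Nonempty := by
      rw [← card_pos]
      have h3 := card_le_card h1
      have h4 := card_le_card h2
      have h5 := hu1 i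
      have h6 := hu1 j
      unfold Heavy at h5 h6
      have h7 := card_union_add_card_inter (Cs A i t) (Cs A j t)
      have h8 : (Cs A i t ∪ Cs A j t).card ≤ m := by
        have := card_le_univ (Cs A i t ∪ Cs A j t)
        rwa [Fintype.card_fin] at this
      omega
    obtain ⟨k, hk⟩ := hcard
    rw [mem_inter] at hk
    have h9 := Cs_subset hA hk.2 (self_mem_Cs)
    -- j ∈ Cs A k t
    have h10 : i ∈ Cs A k t := Cs_subset hA hk.1 self_mem_Cs
    have h11 := Cs_subset hA h10 h9
    rcases mem_Cs.1 h11 with h | h
    · exact absurd h.symm hij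
    · exact h
  -- F4
  have F4 : ∀ i j, i ≠ j → u i < A i j → u j ≤ u i := by
    intro i j hij h
    by_contra hcon
    push Not at hcon
    set t := min (u j) (A i j) with ht
    have h1 : u i < t := lt_min hcon h
    have h2 : Heavy A i t := by
      have h3 : Cs A j (u j) ⊆ Cs A j t := by
        intro l hl
        rw [mem_Cs] at hl ⊢
        rcases hl with h | h
        · exact Or.inl h
        · exact Or.inr ((min_le_left _ _).trans h)
      have h4 : i ∈ Cs A j t := by
        rw [mem_Cs, hA.1]
        exact Or.inr (min_le_right _ _)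
      have h5 := h3.trans (Cs_subset hA h4)
      have h6 := card_le_card h5
      have h7 := hu1 j
      unfold Heavy at h7 ⊢
      omega
    exact absurd (hu2 i t h2) (not_le.2 h1)
  have F4' : ∀ i j, i ≠ j → min (u i) (u j) < A i j → u i = u j := by
    intro i j hij h
    rcases le_total (u i) (u j) with h1 | h1
    · rw [min_eq_left h1] at h
      exact le_antisymm h1 (F4 i j hij h)
    · rw [min_eq_right h1] at h
      rw [hA.1] at h
      exact le_antisymm (F4 j i hij.symm h) h1
  set B0 : Fin m → Fin m → ℝ := fun i j => A i j - u i - u j + η with hB0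
  have hB0s : ∀ i j, B0 i j = B0 j i := by
    intro i j
    simp only [hB0, hA.1 i j]; ring
  have hB0lb : ∀ i j, i ≠ j → η - max (u i) (u j) ≤ B0 i j := by
    intro i j hij
    have h1 := F3 i j hij
    have h2 := min_add_max (u i) (u j)
    simp only [hB0]
    linarith
  have hB0nn : ∀ i j, i ≠ j → 0 ≤ B0 i j := by
    intro i j hij
    have h1 := hB0lb i j hij
    have h2 : max (u i) (u j) ≤ η := max_le (huη i) (huη j)
    linarith
  have hB0b : ∀ i j, i ≠ j → η - max (u i) (u j) < B0 i j → u i = u j ∧ u i < A i j := by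
    intro i j hij h
    have h2 := min_add_max (u i) (u j)
    have h3 : min (u i) (u j) < A i j := by
      simp only [hB0] at h
      linarith
    have h4 := F4' i j hij h3
    refine ⟨h4, ?_⟩
    rwa [← h4, min_self] at h3
  have hB0u : ∀ i j l, i ≠ j → j ≠ l → i ≠ l → min (B0 i j) (B0 j l) ≤ B0 i l := by
    intro i j l hij hjl hil
    by_contra hcon
    push Not at hcon
    have h1 := lt_of_lt_of_le hcon (min_le_left _ _)
    have h2 := lt_of_lt_of_le hcon (min_le_right _ _)
    have h3 := hB0lb i l hil
    rcases le_total (u i) (u l) with h4 | h4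
    · rw [max_eq_right h4] at h3
      -- B0 j l > η - u l
      have h5 : η - max (u j) (u l) < B0 j l := by
        have := le_max_right (u j) (u l)
        linarith
      obtain ⟨h6, h7⟩ := hB0b j l hjl h5
      have h8 : η - max (u i) (u j) < B0 i j := by
        have := le_max_right (u i) (u j)
        linarith
      obtain ⟨h9, h10⟩ := hB0b i j hij h8
      have h11 := hA.2 i j l hij hjl hil
      simp only [hB0] at h1 h2
      rcases min_le_iff.1 h11 with h12 | h12
      · linarith
      · linarith
    · rw [max_eq_left h4] at h3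
      have h5 : η - max (u i) (u j) < B0 i j := by
        have := le_max_left (u i) (u j)
        linarith
      obtain ⟨h6, h7⟩ := hB0b i j hij h5
      have h8 : η - max (u j) (u l) < B0 j l := by
        have := le_max_left (u j) (u l)
        linarith
      obtain ⟨h9, h10⟩ := hB0b j l hjl h8
      have h11 := hA.2 i j l hij hjl hil
      simp only [hB0] at h1 h2
      rcases min_le_iff.1 h11 with h12 | h12
      · linarith
      · linarith
  have hex : ∀ i, ∃ j, j ≠ i ∧ ∀ k, k ≠ i → B0 i k ≤ B0 i j := by
    intro i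
    obtain ⟨j1, hj1⟩ := exists_other hm i
    obtain ⟨j0, hj0, hmax⟩ := exists_max_image (univ.filter fun j => j ≠ i) (fun j => B0 i j)
      ⟨j1, by simpa using hj1⟩
    exact ⟨j0, by simpa using hj0, fun k hk => hmax k (by simpa using hk)⟩
  choose J hJ1 hJ2 using hex
  set B : Fin m → Fin m → ℝ := fun i j => if i = j then B0 i (J i) else B0 i j with hB
  have hBne : ∀ i j, i ≠ j → B i j = B0 i j := fun i j h => by simp only [hB, if_neg h]
  have hBdiag : ∀ i, B i i = B0 i (J i) := fun i => by simp only [hB, if_true]
  have hBle : ∀ i j, B i j ≤ B i i := by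
    intro i j
    by_cases h : i = j
    · rw [h]
    · rw [hBne i j h, hBdiag]
      exact hJ2 i j (Ne.symm h)
  have hBs : ∀ i j, B i j = B j i := by
    intro i j
    by_cases h : i = j
    · rw [h]
    · rw [hBne i j h, hBne j i (Ne.symm h), hB0s]
  have hBnn : ∀ i j, 0 ≤ B i j := by
    intro i j
    by_cases h : i = j
    · rw [← h, hBdiag]
      exact hB0nn i (J i) (Ne.symm (hJ1 i))
    · rw [hBne i j h]; exact hB0nn i j h
  have hBsim : Sim B := by
    refine ⟨hBnn, hBs, fun i j l => ?_, hBle⟩
    by_cases hij : i = j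
    · subst hij
      exact min_le_right _ _
    by_cases hjl : j = l
    · subst hjl
      exact min_le_left _ _
    by_cases hil : i = l
    · subst hil
      exact (min_le_left _ _).trans (hBle i j)
    rw [hBne i j hij, hBne j l hjl, hBne i l hil]
    exact hB0u i j l hij hjl hil
  refine ⟨u, η, B, huη, ?_, ?_, hBsim, ?_, ?_⟩
  · intro i j h
    rw [hBne i j h]
  · intro i j h
    rw [hBne i j h]
    exact hB0lb i j h
  · intro i
    exact ⟨J i, hJ1 i, by rw [hBdiag, hBne i (J i) (Ne.symm (hJ1 i))]⟩
  · intro i T hT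
    rcases lt_or_eq_of_le (huη i) with hlt | heq
    · -- all points of T have u < η
      have h1 : ∀ j ∈ T, u j < η := by
        intro j hj
        rcases hT j hj with h | h
        · by_cases hji : j = i
          · rw [hji]; exact hlt
          · rw [hBne i j (Ne.symm hji)] at h
            by_contra hcon
            have h2 : u j = η := le_antisymm (huη j) (not_lt.1 hcon)
            have h3 : max (u i) (u j) = η := by rw [h2]; exact max_eq_right hlt.le
            have h4 := (hB0b i j (Ne.symm hji) (by rw [h3, sub_self]; exact h)).1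
            rw [h2] at h4
            exact absurd h4 hlt.ne
        · rw [h]; exact hlt
      have h2 : Disjoint T (Cs A i0 η) := by
        rw [disjoint_left]
        intro j hj hj2
        have h3 := Cs_subset hA hj2
        have h4 : Heavy A j η := by
          have h5 := card_le_card h3
          have h6 := hu1 i0
          unfold Heavy at h6 ⊢
          rw [← hη] at h6
          omega
        exact absurd (hu2 j η h4) (not_le.2 (h1 j hj))
      have h3 := card_union_of_disjoint h2
      have h4 : (T ∪ Cs A i0 η).card ≤ m := by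
        have := card_le_univ (T ∪ Cs A i0 η)
        rwa [Fintype.card_fin] at this
      have h6 := hu1 i0
      unfold Heavy at h6
      rw [← hη] at h6
      omega
    · by_contra hcon
      push Not at hcon
      -- T ⊆ {i} ∪ {A i j > η}
      have h1 : ∀ j ∈ T, j ≠ i → η < A i j := by
        intro j hj hji
        rcases hT j hj with h | h
        · rw [hBne i j (Ne.symm hji)] at h
          have h3 : max (u i) (u j) = η := by rw [heq]; exact max_eq_left (huη j)
          have h4 := (hB0b i j (Ne.symm hji) (by rw [h3, sub_self]; exact h)).2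
          rwa [heq] at h4
        · exact absurd h hji
      have hne : (T.erase i).Nonempty := by
        rw [← card_pos]
        have := pred_card_le_card_erase (s := T) (a := i)
        omega
      obtain ⟨j0, hj0, hmin⟩ := exists_min_image _ (fun j => A i j) hne
      have h2 : T ⊆ Cs A i (A i j0) := by
        intro j hj
        rw [mem_Cs]
        by_cases hji : j = i
        · exact Or.inl hji
        · exact Or.inr (hmin j (mem_erase.2 ⟨hji, hj⟩))
      have h3 : Heavy A i (A i j0) := by
        unfold Heavy
        have := card_le_card h2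
        omega
      have h4 := hu2 i _ h3
      have h5 := h1 j0 (mem_of_mem_erase hj0) (ne_of_mem_erase hj0)
      rw [heq] at h4
      linarith

end Run7.h523.MZ
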