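import Mathlib
import Pool.Agent.Run7.h523.MZ.Light
import Pool.Agent.Run7.h523.MZ.Median

set_option autoImplicit false

open Finset Pool.Agent.Y734.R

namespace Run7.h523.MZ

theorem fibre {ι : Type*} [DecidableEq ι] (t φ : ι → ℝ) (x : ℝ) (N : ℕ) :
    ∀ F : Finset ι, F.card = N + 1 →
      (∀ i ∈ F, ∀ j ∈ F, i ≠ j → min (t i) (t j) ≤ φ i + φ j) → (∀ i ∈ F, t i ≤ φ i + x) →
      ∀ i1 ∈ F, (∀ i ∈ F, t i1 ≤ t i) → ∑ i ∈ F, t i ≤ 2 * ∑ i ∈ F, φ i - φ i1 + x := by
  induction N with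
  | zero =>
    intro F hF h1 h2 i1 hi1 _
    obtain ⟨a, rfl⟩ := card_eq_one.1 (by simpa using hF)
    have : i1 = a := by simpa using hi1
    subst this
    have := h2 i1 hi1
    simp only [sum_singleton]
    linarith
  | succ N ih =>
    intro F hF h1 h2 i1 hi1 hmin
    have hc : (F.erase i1).card = N + 1 := by
      rw [card_erase_of_mem hi1, hF]; omega
    have hne : (F.erase i1).Nonempty := by
      rw [← card_pos, hc]; omega
    obtain ⟨i2, hi2, hmin2⟩ := exists_min_image _ t hne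
    have h3 := ih (F.erase i1) hc
      (fun i hi j hj hij => h1 i (mem_of_mem_erase hi) j (mem_of_mem_erase hj) hij)
      (fun i hi => h2 i (mem_of_mem_erase hi)) i2 hi2 hmin2
    have hi2F := mem_of_mem_erase hi2
    have h4 := h1 i1 hi1 i2 hi2F (ne_of_mem_erase hi2).symm
    rw [min_eq_left (hmin i2 hi2F)] at h4
    rw [← add_sum_erase F t hi1, ← add_sum_erase F φ hi1]
    linarith

theorem sum_ge {m : ℕ} (φ : Fin m → ℝ) {ν : ℝ} (hν0 : 0 ≤ ν) (hν : ∀ i, -ν ≤ φ i)
    (hp : ∀ i j, i ≠ j → 0 ≤ φ i + φ j) (T : Finset (Fin m)) : -ν ≤ ∑ i ∈ T, φ i := by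
  classical
  by_cases h : ∃ i ∈ T, φ i < 0
  · obtain ⟨i, hi, hneg⟩ := h
    rw [← add_sum_erase T φ hi]
    have h1 : 0 ≤ ∑ j ∈ T.erase i, φ j := by
      refine sum_nonneg fun j hj => ?_
      have := hp i j (ne_of_mem_erase hj).symm
      linarith
    have := hν i
    linarith
  · push Not at h
    have := sum_nonneg h
    linarith

/-- The sum of the depths of the leaves. -/
theorem sum_diag {m : ℕ} (B : Fin m → Fin m → ℝ) (hB : Sim B)
    (hd : ∀ i, ∃ j, j ≠ i ∧ B i i = B i j) (φ : Fin m → ℝ) {ν : ℝ} (hν0 : 0 ≤ ν)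
    (hν : ∀ i, -ν ≤ φ i) (hle : ∀ i j, i ≠ j → B i j ≤ φ i + φ j) :
    ∑ i, B i i ≤ 3 * ∑ i, φ i + 2 * ν := by
  classical
  choose J hJ1 hJ2 using hd
  have hp : ∀ i j, i ≠ j → 0 ≤ φ i + φ j := fun i j h => (hB.1 i j).trans (hle i j h)
  set I : Finset (Fin m) := univ.image J with hI
  have hmaps : ∀ i ∈ (univ : Finset (Fin m)), J i ∈ I := fun i hi => mem_image_of_mem _ hi
  set F : Fin m → Finset (Fin m) := fun j => univ.filter fun i => J i = j with hF
  have hFne : ∀ j ∈ I, (F j).Nonempty := by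
    intro j hj
    obtain ⟨i, -, hi⟩ := mem_image.1 hj
    exact ⟨i, by simp [hF, hi]⟩
  have hmin : ∀ j : Fin m, ∃ i1 : Fin m, j ∈ I → i1 ∈ F j ∧ ∀ i ∈ F j, B i1 i1 ≤ B i i := by
    intro j
    by_cases hj : j ∈ I
    · obtain ⟨i1, h1, h2⟩ := exists_min_image (F j) (fun i => B i i) (hFne j hj)
      exact ⟨i1, fun _ => ⟨h1, h2⟩⟩
    · exact ⟨j, fun h => absurd h hj⟩
  choose e he using hmin
  have hstep : ∀ j ∈ I, ∑ i ∈ F j, B i i ≤ 2 * ∑ i ∈ F j, φ i - φ (e j) + φ j := by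
    intro j hj
    obtain ⟨N, hN⟩ : ∃ N, (F j).card = N + 1 := ⟨(F j).card - 1, by
      have := card_pos.2 (hFne j hj); omega⟩
    refine fibre (fun i => B i i) φ (φ j) N (F j) hN ?_ ?_ (e j) (he j hj).1 (he j hj).2
    · intro i hi i' hi' hii
      have h1 : J i = j := by simpa [hF] using hi
      have h2 : J i' = j := by simpa [hF] using hi'
      have h3 := hJ2 i
      have h4 := hJ2 i'
      rw [h1] at h3
      rw [h2] at h4
      rw [h3, h4, hB.2.1 i' j]
      exact (hB.2.2.1 i j i').trans (hle i i' hii)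
    · intro i hi
      have h1 : J i = j := by simpa [hF] using hi
      have h3 := hJ2 i
      rw [h1] at h3
      rw [h3]
      have h4 := hJ1 i
      rw [h1] at h4
      exact hle i j (Ne.symm h4)
  have h1 : ∑ i, B i i = ∑ j ∈ I, ∑ i ∈ F j, B i i :=
    (sum_fiberwise_of_maps_to hmaps _).symm
  have h2 : ∑ i, φ i = ∑ j ∈ I, ∑ i ∈ F j, φ i :=
    (sum_fiberwise_of_maps_to hmaps _).symm
  have h3 : ∑ i, B i i ≤ 2 * ∑ i, φ i - ∑ j ∈ I, φ (e j) + ∑ j ∈ I, φ j := by
    rw [h1, h2, mul_sum, ← sum_sub_distrib, ← sum_add_distrib]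
    exact sum_le_sum hstep
  have h4 : -ν ≤ ∑ j ∈ I, φ (e j) := by
    have hinj : ∀ x ∈ I, ∀ y ∈ I, e x = e y → x = y := by
      intro x hx y hy hxy
      have hx1 : J (e x) = x := by simpa [hF] using (he x hx).1
      have hy1 : J (e y) = y := by simpa [hF] using (he y hy).1
      rw [← hx1, ← hy1, hxy]
    have h5 : ∑ j ∈ I, φ (e j) = ∑ k ∈ I.image e, φ k := (sum_image (fun x hx y hy h => hinj x hx y hy h)).symm
    rw [h5]
    exact sum_ge φ hν0 hν hp _
  have h5 : ∑ j ∈ I, φ j ≤ ∑ i, φ i + ν := by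
    have h6 := sum_ge φ hν0 hν hp (univ \ I)
    have h7 := sum_sdiff (f := φ) (subset_univ I)
    linarith
  linarith

/-- The rooted form. -/
theorem rooted {q m : ℕ} (hm2 : 3 ≤ m)
    (hnum : ((q : ℝ) - 1) * (3 * q - 2) * (m - 2) + 2 * q * (q - 1) < 2 * m * (m - 2))
    (hq : 1 ≤ q)
    (B : Fin q → Fin m → Fin m → ℝ) (hB : ∀ s, Sim (B s))
    (hd : ∀ s i, ∃ j, j ≠ i ∧ B s i i = B s i j)
    (hcl : ∀ s (i : Fin m) (T : Finset (Fin m)), (∀ j ∈ T, 0 < B s i j ∨ j = i) → 2 * T.card ≤ m)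
    (φ : Fin m → ℝ) (hφ : ∀ i j, i ≠ j → ∑ s, B s i j = φ i + φ j) : ∀ i, φ i = 0 := by
  classical
  have hle : ∀ s i j, i ≠ j → B s i j ≤ φ i + φ j := by
    intro s i j hij
    rw [← hφ i j hij]
    exact single_le_sum (f := fun s => B s i j) (fun t _ => (hB t).1 i j) (mem_univ s)
  have hp : ∀ i j, i ≠ j → 0 ≤ φ i + φ j := fun i j h => by
    rw [← hφ i j h]
    exact sum_nonneg fun s _ => (hB s).1 i j
  set D : Fin m → ℝ := fun i => ∑ s, B s i i - 2 * φ i with hD
  have hquad : ∀ c : Fin m → ℝ, ∑ s, ∑ i, ∑ j, c i * c j * B s i j =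
      2 * (∑ i, c i) * (∑ i, c i * φ i) + ∑ i, D i * c i ^ 2 := by
    intro c
    have h1 : ∑ s, ∑ i, ∑ j, c i * c j * B s i j = ∑ i, ∑ j, c i * c j * ∑ s, B s i j := by
      rw [sum_comm]
      refine sum_congr rfl fun i _ => ?_
      rw [sum_comm]
      refine sum_congr rfl fun j _ => ?_
      rw [mul_sum]
    rw [h1]
    have h2 : ∀ i, ∑ j, c i * c j * ∑ s, B s i j =
        ∑ j, c i * c j * (φ i + φ j) + D i * c i ^ 2 := by
      intro i
      rw [← add_sum_erase univ _ (mem_univ i), ← add_sum_erase univ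
        (fun j => c i * c j * (φ i + φ j)) (mem_univ i)]
      have h3 : ∑ j ∈ univ.erase i, c i * c j * ∑ s, B s i j =
          ∑ j ∈ univ.erase i, c i * c j * (φ i + φ j) := by
        refine sum_congr rfl fun j hj => ?_
        rw [hφ i j (ne_of_mem_erase hj).symm]
      rw [h3]
      simp only [hD]
      ring
    rw [sum_congr rfl fun i _ => h2 i, sum_add_distrib]
    congr 1
    have h4 : ∀ i, ∑ j, c i * c j * (φ i + φ j) =
        c i * φ i * (∑ j, c j) + c i * ∑ j, c j * φ j := by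
      intro i
      rw [mul_sum, mul_sum, ← sum_add_distrib]
      refine sum_congr rfl fun j _ => ?_
      ring
    rw [sum_congr rfl fun i _ => h4 i, sum_add_distrib, ← sum_mul, ← sum_mul]
    ring
  have hlight : ∀ s, ∑ i, ∑ j, B s i j ≤ ∑ i, D i := by
    intro s
    refine light (hB s) D (fun i => hcl s i _ fun j hj => mem_cl.1 hj) fun c hc => ?_
    have h1 := hquad c
    rw [hc] at h1
    have h2 : ∑ i, ∑ j, c i * c j * B s i j ≤ ∑ s, ∑ i, ∑ j, c i * c j * B s i j :=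
      single_le_sum (f := fun s => ∑ i, ∑ j, c i * c j * B s i j)
        (fun t _ => psd_real m (B t) (hB t) c) (mem_univ s)
    linarith
  have h1 := hquad (fun _ => 1)
  have h2 : ∑ s, ∑ i, ∑ j, B s i j ≤ q * ∑ i, D i := by
    calc ∑ s, ∑ i, ∑ j, B s i j ≤ ∑ _s : Fin q, ∑ i, D i := sum_le_sum fun s _ => hlight s
      _ = q * ∑ i, D i := by simp
  simp only [one_mul, one_pow, mul_one, sum_const, card_univ, Fintype.card_fin, nsmul_eq_mul] at h1
  set Φ : ℝ := ∑ i, φ i with hΦ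
  obtain ⟨i0, -, hi0⟩ := exists_min_image (univ : Finset (Fin m)) φ ⟨⟨0, by omega⟩, mem_univ _⟩
  set ν : ℝ := max 0 (-φ i0) with hν
  have hν0 : 0 ≤ ν := le_max_left _ _
  have hν1 : ∀ i, -ν ≤ φ i := by
    intro i
    have h3 := hi0 i (mem_univ i)
    have h4 : -φ i0 ≤ ν := le_max_right _ _
    linarith
  have hm' : (3 : ℝ) ≤ m := by exact_mod_cast hm2
  have hν2 : ((m : ℝ) - 2) * ν ≤ Φ := by
    rw [hΦ, ← add_sum_erase univ φ (mem_univ i0)]
    have h3 : ((m : ℝ) - 1) * ν ≤ ∑ i ∈ univ.erase i0, φ i := by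
      have h4 : ∑ i ∈ univ.erase i0, ν ≤ ∑ i ∈ univ.erase i0, φ i := by
        refine sum_le_sum fun i hi => ?_
        have h5 := hp i0 i (ne_of_mem_erase hi).symm
        have h6 := hi0 i (mem_univ i)
        refine max_le ?_ ?_ <;> linarith
      rw [sum_const, card_erase_of_mem (mem_univ _), card_univ, Fintype.card_fin,
        nsmul_eq_mul] at h4
      have h5 : ((m - 1 : ℕ) : ℝ) = m - 1 := by
        rw [Nat.cast_sub (by omega)]; simp
      rwa [h5] at h4
    have h4 := hν1 i0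
    nlinarith
  have h3 : ∑ i, D i ≤ q * (3 * Φ + 2 * ν) - 2 * Φ := by
    have h4 : ∑ i, D i = ∑ s, ∑ i, B s i i - 2 * Φ := by
      simp only [hD, sum_sub_distrib, ← mul_sum, hΦ]
      rw [sum_comm]
    rw [h4]
    have h5 : ∑ s, ∑ i, B s i i ≤ ∑ _s : Fin q, (3 * Φ + 2 * ν) :=
      sum_le_sum fun s _ => sum_diag (B s) (hB s) (hd s) φ hν0 hν1 (hle s)
    simp only [sum_const, card_univ, Fintype.card_fin, nsmul_eq_mul] at h5
    linarith
  have hq' : (1 : ℝ) ≤ q := by exact_mod_cast hq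
  have h4 : 2 * m * Φ ≤ (q - 1) * ((3 * q - 2) * Φ + 2 * q * ν) := by
    have h5 : 2 * m * Φ ≤ (q - 1) * ∑ i, D i := by linarith
    have h6 : ((q : ℝ) - 1) * ∑ i, D i ≤ (q - 1) * (q * (3 * Φ + 2 * ν) - 2 * Φ) := by
      apply mul_le_mul_of_nonneg_left h3; linarith
    linarith
  have hΦ0 : Φ ≤ 0 := by
    by_contra hcon
    push Not at hcon
    have h5 : 2 * m * (m - 2) * Φ ≤ ((q - 1) * (3 * q - 2) * (m - 2) + 2 * q * (q - 1)) * Φ := by
      have h6 : (2 * m * Φ) * (m - 2) ≤ ((q - 1) * ((3 * q - 2) * Φ + 2 * q * ν)) * (m - 2) := by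
        apply mul_le_mul_of_nonneg_right h4; linarith
      have h7 : (q - 1) * (2 * q) * ((m - 2) * ν) ≤ (q - 1) * (2 * q) * Φ := by
        apply mul_le_mul_of_nonneg_left hν2
        have : (0 : ℝ) ≤ q - 1 := by linarith
        positivity
      nlinarith
    have h6 := mul_lt_mul_of_pos_right hnum hcon
    linarith
  have hν3 : ν = 0 := by
    have h5 : (m - 2) * ν ≤ 0 := hν2.trans hΦ0
    have h6 : (0 : ℝ) < m - 2 := by linarith
    nlinarith
  have hnn : ∀ i, 0 ≤ φ i := fun i => by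
    have := hν1 i
    rw [hν3] at this
    linarith
  intro i
  have h5 : φ i ≤ Φ := single_le_sum (f := φ) (fun j _ => hnn j) (mem_univ i)
  exact le_antisymm (h5.trans hΦ0) (hnn i)

/-- The theorem for real numbers. -/
theorem real_comb {q m : ℕ} (hm2 : 3 ≤ m) (hq : 1 ≤ q) (hqm : q < m)
    (hnum : ((q : ℝ) - 1) * (3 * q - 2) * (m - 2) + 2 * q * (q - 1) < 2 * m * (m - 2))
    (A : Fin q → Fin m → Fin m → ℝ) (hA : ∀ s, OffSim (A s)) (E : ℝ)
    (hE : ∀ i j, i ≠ j → ∑ s, A s i j = E) :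
    ∀ s i j a b, i ≠ j → a ≠ b → A s i j = A s a b := by
  classical
  choose u η B hu hBA hlb hB hd hcl using fun s => median (by omega : 2 ≤ m) (A s) (hA s)
  set H : ℝ := ∑ s, η s with hH
  set U : Fin m → ℝ := fun i => ∑ s, u s i with hU
  set φ : Fin m → ℝ := fun i => (E + H) / 2 - U i with hφdef
  have hφ : ∀ i j, i ≠ j → ∑ s, B s i j = φ i + φ j := by
    intro i j hij
    rw [sum_congr rfl fun s _ => hBA s i j hij]
    simp only [sum_add_distrib, sum_sub_distrib, hE i j hij, hφdef, hH, hU]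
    ring
  have hφ0 := rooted hm2 hnum hq B hB hd hcl φ hφ
  have hB0 : ∀ s i j, i ≠ j → B s i j = 0 := by
    intro s i j hij
    refine le_antisymm ?_ ((hB s).1 i j)
    have h1 : B s i j ≤ ∑ s, B s i j :=
      single_le_sum (f := fun s => B s i j) (fun t _ => (hB t).1 i j) (mem_univ s)
    rw [hφ i j hij, hφ0, hφ0] at h1
    linarith
  -- a point with all `u s j = η s`
  obtain ⟨j0, hj0⟩ : ∃ j0, ∀ s, u s j0 = η s := by
    by_contra hcon
    push Not at hcon
    choose f hf using hcon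
    have hinj : Function.Injective f := by
      intro i j hij
      by_contra hne
      have h1 := hlb (f i) i j hne
      rw [hB0 (f i) i j hne] at h1
      have h2 : u (f i) i < η (f i) := lt_of_le_of_ne (hu _ _) (hf i)
      have h3 : u (f i) j < η (f i) := by
        rw [hij]
        exact lt_of_le_of_ne (hu _ _) (hf j)
      have h4 := max_lt h2 h3
      linarith
    have h5 := Fintype.card_le_of_injective f hinj
    rw [Fintype.card_fin, Fintype.card_fin] at h5
    omega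
  have hEH : (E + H) / 2 = H := by
    have h1 := hφ0 j0
    simp only [hφdef, hU, hj0, hH] at h1 ⊢
    linarith
  have huη : ∀ s i, u s i = η s := by
    intro s i
    have h1 := hφ0 i
    simp only [hφdef] at h1
    rw [hEH] at h1
    have h2 : ∑ s, (η s - u s i) = 0 := by
      rw [sum_sub_distrib]
      exact h1
    have h3 := (sum_eq_zero_iff_of_nonneg (fun s _ => sub_nonneg.2 (hu s i))).1 h2 s (mem_univ s)
    linarith
  have hconst : ∀ s i j, i ≠ j → A s i j = η s := by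
    intro s i j hij
    have h1 := hBA s i j hij
    rw [hB0 s i j hij, huη, huη] at h1
    linarith
  intro s i j a b hij hab
  rw [hconst s i j hij, hconst s a b hab]

end Run7.h523.MZ
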