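import Mathlib
import Pool.Agent.Run7.h523.MZ.RealComb

set_option autoImplicit false

open Finset Pool.Agent.Y734.R

namespace Run7.h523.MZ

section ratio

variable {G : Type} [AddCommGroup G] [LinearOrder G] [IsOrderedAddMonoid G]

/-- the rational lower bounds for `x / e` -/
def Sr (e x : G) : Set ℝ := {r | ∃ (p : ℤ) (n : ℕ), 0 < n ∧ r = (p : ℝ) / n ∧ p • e ≤ n • x}

/-- the standard part of `x / e` -/
noncomputable def rt (e x : G) : ℝ := sSup (Sr e x)

theorem Sr_bdd {e x : G} (he : 0 < e) {k : ℕ} (hx : x ≤ k • e) : ∀ r ∈ Sr e x, r ≤ k := by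
  rintro r ⟨p, n, hn, rfl, h⟩
  have h1 : p • e ≤ (((n * k : ℕ) : ℤ)) • e := by
    rw [natCast_zsmul, mul_nsmul']
    exact h.trans (nsmul_le_nsmul_right hx n)
  have h2 : p ≤ ((n * k : ℕ) : ℤ) := (zsmul_le_zsmul_iff_left he).1 h1
  have hn' : (0 : ℝ) < n := by exact_mod_cast hn
  rw [div_le_iff₀ hn']
  have h3 : (p : ℝ) ≤ ((n * k : ℕ) : ℤ) := by exact_mod_cast h2
  push_cast at h3
  linarith

omit [IsOrderedAddMonoid G] in
theorem zero_mem_Sr {e x : G} (hx : 0 ≤ x) : (0 : ℝ) ∈ Sr e x :=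
  ⟨0, 1, one_pos, by simp, by simpa using hx⟩

theorem le_rt {e x : G} (he : 0 < e) {k : ℕ} (hx : x ≤ k • e) {r : ℝ} (hr : r ∈ Sr e x) :
    r ≤ rt e x := le_csSup ⟨k, fun r hr => Sr_bdd he hx r hr⟩ hr

theorem rt_le {e x : G} (hx : 0 ≤ x) {c : ℝ} (h : ∀ r ∈ Sr e x, r ≤ c) : rt e x ≤ c :=
  csSup_le ⟨0, zero_mem_Sr hx⟩ h

theorem rt_mono {e x y : G} (he : 0 < e) {k : ℕ} (hx : 0 ≤ x) (hxy : x ≤ y) (hy : y ≤ k • e) :
    rt e x ≤ rt e y := by
  refine rt_le hx fun r hr => le_rt he hy ?_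
  obtain ⟨p, n, hn, rfl, h⟩ := hr
  exact ⟨p, n, hn, rfl, h.trans (nsmul_le_nsmul_right hxy n)⟩

open Classical in
theorem exists_floor {e x : G} (he : 0 < e) {k : ℕ} (hx0 : 0 ≤ x) (hx : x ≤ k • e) (N : ℕ) :
    ∃ a : ℕ, a • e ≤ N • x ∧ N • x < (a + 1) • e := by
  refine ⟨Nat.findGreatest (fun a => a • e ≤ N • x) (N * k), ?_, ?_⟩
  · exact Nat.findGreatest_spec (P := fun a => a • e ≤ N • x) (m := 0) (Nat.zero_le _)
      (by simpa using nsmul_nonneg hx0 N)
  · by_contra hcon
    push Not at hcon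
    have h1 : Nat.findGreatest (fun a => a • e ≤ N • x) (N * k) + 1 ≤ N * k := by
      have h2 : (Nat.findGreatest (fun a => a • e ≤ N • x) (N * k) + 1) • e ≤ (N * k) • e := by
        rw [mul_nsmul' e N k]
        exact hcon.trans (nsmul_le_nsmul_right hx N)
      exact (nsmul_le_nsmul_iff_left he).1 h2
    exact Nat.findGreatest_is_greatest (P := fun a => a • e ≤ N • x) (Nat.lt_succ_self _) h1 hcon

theorem rt_add {e x y : G} (he : 0 < e) {k : ℕ} (hx0 : 0 ≤ x) (hy0 : 0 ≤ y)
    (hxy : x + y ≤ k • e) : rt e (x + y) = rt e x + rt e y := by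
  have hx : x ≤ k • e := (le_add_of_nonneg_right hy0).trans hxy
  have hy : y ≤ k • e := (le_add_of_nonneg_left hx0).trans hxy
  apply le_antisymm
  · refine rt_le (add_nonneg hx0 hy0) ?_
    rintro r ⟨p, n, hn, rfl, h⟩
    have hn' : (0 : ℝ) < n := by exact_mod_cast hn
    have key : ∀ N : ℕ, 0 < N → (p : ℝ) / n ≤ rt e x + rt e y + 2 / N := by
      intro N hN
      have hN' : (0 : ℝ) < N := by exact_mod_cast hN
      obtain ⟨a, ha1, ha2⟩ := exists_floor he hx0 hx N
      obtain ⟨b, hb1, hb2⟩ := exists_floor he hy0 hy N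
      have h1 : (a : ℝ) / N ≤ rt e x :=
        le_rt he hx ⟨a, N, hN, by push_cast; rfl, by rw [natCast_zsmul]; exact ha1⟩
      have h2 : (b : ℝ) / N ≤ rt e y :=
        le_rt he hy ⟨b, N, hN, by push_cast; rfl, by rw [natCast_zsmul]; exact hb1⟩
      have h3 : ((N : ℤ) * p) • e < ((n : ℤ) * (a + b + 2)) • e := by
        have h4 : ((N : ℤ) * p) • e ≤ (N * n) • (x + y) := by
          have h5 := nsmul_le_nsmul_right h N
          rw [mul_zsmul, natCast_zsmul, mul_nsmul']
          exact h5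
        refine lt_of_le_of_lt h4 ?_
        have h6 : (N * n) • (x + y) = n • (N • x + N • y) := by
          rw [mul_comm, mul_nsmul', nsmul_add]
        have h7 : ((n : ℤ) * (a + b + 2)) • e = n • ((a + 1) • e + (b + 1) • e) := by
          rw [mul_zsmul, natCast_zsmul, ← add_nsmul]
          congr 1
          rw [← natCast_zsmul e]
          congr 1
          push_cast
          ring
        rw [h6, h7]
        exact nsmul_lt_nsmul_right hn.ne' (add_lt_add ha2 hb2)
      have h8 : (N : ℤ) * p < n * (a + b + 2) := (zsmul_lt_zsmul_iff_left he).1 h3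
      have h9 : (N : ℝ) * p < n * (a + b + 2) := by exact_mod_cast h8
      have h10 : (p : ℝ) / n < (a + b + 2) / N := by
        rw [div_lt_div_iff₀ hn' hN']
        linarith
      have h11 : ((a : ℝ) + b + 2) / N = a / N + b / N + 2 / N := by ring
      linarith
    by_contra hcon
    push Not at hcon
    obtain ⟨N, hN⟩ := exists_nat_gt (2 / ((p : ℝ) / n - (rt e x + rt e y)))
    have hpos : 0 < (p : ℝ) / n - (rt e x + rt e y) := by linarith
    have hN0 : (0 : ℝ) < N := lt_trans (by positivity) hN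
    have h1 := key N (by exact_mod_cast hN0)
    rw [div_lt_iff₀ hpos] at hN
    have h2 : (2 : ℝ) / N < (p : ℝ) / n - (rt e x + rt e y) := by
      rw [div_lt_iff₀ hN0]
      linarith
    linarith
  · have h1 : rt e x ≤ rt e (x + y) - rt e y := by
      refine rt_le hx0 ?_
      rintro r ⟨p, n, hn, rfl, h⟩
      have h2 : rt e y ≤ rt e (x + y) - p / n := by
        refine rt_le hy0 ?_
        rintro r' ⟨p', n', hn', rfl, h'⟩
        have h3 : (p : ℝ) / n + p' / n' ≤ rt e (x + y) := by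
          refine le_rt he hxy ⟨p * n' + p' * n, n * n', Nat.mul_pos hn hn', ?_, ?_⟩
          · have a1 : (n : ℝ) ≠ 0 := by exact_mod_cast hn.ne'
            have a2 : (n' : ℝ) ≠ 0 := by exact_mod_cast hn'.ne'
            push_cast
            field_simp
          · have h4 : (p * n' + p' * n : ℤ) • e = n' • (p • e) + n • (p' • e) := by
              rw [add_zsmul, mul_comm p, mul_comm p', mul_zsmul, mul_zsmul, natCast_zsmul,
                natCast_zsmul]
            have h5 : (n * n') • (x + y) = n' • (n • x) + n • (n' • y) := by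
              rw [nsmul_add, mul_nsmul' y, mul_comm n n', mul_nsmul' x]
            rw [h4, h5]
            exact add_le_add (nsmul_le_nsmul_right h n') (nsmul_le_nsmul_right h' n)
        linarith
      linarith
    linarith

theorem rt_self {e : G} (he : 0 < e) : rt e e = 1 := by
  apply le_antisymm
  · refine rt_le he.le fun r hr => ?_
    have := Sr_bdd (k := 1) he (by simp) r hr
    simpa using this
  · exact le_rt (k := 1) he (by simp) ⟨1, 1, one_pos, by simp, by simp⟩

theorem rt_zero {e : G} (he : 0 < e) : rt e 0 = 0 := by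
  have := rt_add (x := 0) (y := 0) (k := 1) he le_rfl le_rfl (by simpa using he.le)
  simp only [add_zero] at this
  linarith

theorem rt_sum {e : G} (he : 0 < e) {ι : Type*} (s : Finset ι) (x : ι → G)
    (hx : ∀ i ∈ s, 0 ≤ x i) (h : ∑ i ∈ s, x i ≤ 1 • e) :
    rt e (∑ i ∈ s, x i) = ∑ i ∈ s, rt e (x i) := by
  classical
  induction s using Finset.induction_on with
  | empty => simp [rt_zero he]
  | insert a s ha ih =>
    rw [sum_insert ha] at h ⊢
    rw [sum_insert ha]
    have h1 : 0 ≤ ∑ i ∈ s, x i := sum_nonneg fun i hi => hx i (mem_insert_of_mem hi)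
    have h2 : 0 ≤ x a := hx a (mem_insert_self a s)
    rw [rt_add he h2 h1 h, ih (fun i hi => hx i (mem_insert_of_mem hi))
      ((le_add_of_nonneg_left h2).trans h)]

end ratio

/-- The theorem for ordered groups. -/
theorem group_comb {G : Type} [AddCommGroup G] [LinearOrder G] [IsOrderedAddMonoid G] {q m : ℕ}
    (hm2 : 3 ≤ m) (hq : 1 ≤ q) (hqm : q < m)
    (hnum : ((q : ℝ) - 1) * (3 * q - 2) * (m - 2) + 2 * q * (q - 1) < 2 * m * (m - 2))
    (d : Fin q → Fin m → Fin m → G) (hs : ∀ s i j, d s i j = d s j i)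
    (hu : ∀ s i j l, i ≠ j → j ≠ l → i ≠ l → d s i l ≤ max (d s i j) (d s j l))
    (h0 : ∀ i j, i ≠ j → ∑ s, d s i j = 0) :
    ∀ s i j a b, i ≠ j → a ≠ b → d s i j = d s a b := by
  classical
  by_contra hcon
  push Not at hcon
  obtain ⟨s0, i0, j0, a0, b0, hij0, hab0, hne⟩ := hcon
  set P : Finset (Fin m × Fin m) := univ.filter fun p => p.1 ≠ p.2 with hP
  have hPne : P.Nonempty := ⟨(i0, j0), by simp [hP, hij0]⟩
  have hmax : ∀ s, ∃ p ∈ P, ∀ p' ∈ P, d s p'.1 p'.2 ≤ d s p.1 p.2 := fun s =>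
    exists_max_image P (fun p => d s p.1 p.2) hPne
  choose p hp1 hp2 using hmax
  set A : Fin q → Fin m → Fin m → G := fun s i j => d s (p s).1 (p s).2 - d s i j with hA
  have hA0 : ∀ s i j, i ≠ j → 0 ≤ A s i j := fun s i j h =>
    sub_nonneg.2 (hp2 s (i, j) (by simp [hP, h]))
  set e : G := ∑ s, d s (p s).1 (p s).2 with he
  have hsum : ∀ i j, i ≠ j → ∑ s, A s i j = e := by
    intro i j h
    simp only [hA, sum_sub_distrib, h0 i j h, sub_zero, he]
  have hle : ∀ s i j, i ≠ j → A s i j ≤ e := by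
    intro s i j h
    rw [← hsum i j h]
    exact single_le_sum (f := fun s => A s i j) (fun t _ => hA0 t i j h) (mem_univ s)
  have hepos : 0 < e := by
    have h1 : A s0 i0 j0 ≠ A s0 a0 b0 := fun h => hne (sub_right_injective h)
    rcases lt_or_gt_of_ne h1 with h2 | h2
    · exact lt_of_lt_of_le (lt_of_le_of_lt (hA0 s0 i0 j0 hij0) h2) (hle s0 a0 b0 hab0)
    · exact lt_of_lt_of_le (lt_of_le_of_lt (hA0 s0 a0 b0 hab0) h2) (hle s0 i0 j0 hij0)
  have hmin : ∀ s i j l, i ≠ j → j ≠ l → i ≠ l → A s i j ≤ A s i l ∨ A s j l ≤ A s i l := by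
    intro s i j l h1 h2 h3
    rcases le_max_iff.1 (hu s i j l h1 h2 h3) with h | h
    · exact Or.inl (sub_le_sub_left h _)
    · exact Or.inr (sub_le_sub_left h _)
  have hconst := real_comb hm2 hq hqm hnum (fun s i j => rt e (A s i j)) (fun s => ⟨?_, ?_⟩) 1 ?_
  · have h1 : ∀ s i j, i ≠ j → rt e (A s i j) = 0 := by
      intro s i j hij
      have h2 := hconst s i j (p s).1 (p s).2 hij (by
        have := hp1 s
        simpa [hP] using this)
      rw [h2]
      simp only [hA, sub_self]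
      exact rt_zero hepos
    have h3 : rt e (∑ s, A s i0 j0) = ∑ s, rt e (A s i0 j0) := by
      apply rt_sum hepos _ _ (fun s _ => hA0 s i0 j0 hij0)
      rw [hsum i0 j0 hij0]
      simp
    rw [hsum i0 j0 hij0, rt_self hepos, sum_eq_zero fun s _ => h1 s i0 j0 hij0] at h3
    exact one_ne_zero h3
  · intro i j
    simp only [hA, hs s i j]
  · intro i j l h1 h2 h3
    rcases hmin s i j l h1 h2 h3 with h | h
    · exact (min_le_left _ _).trans (rt_mono (k := 1) hepos (hA0 s i j h1) h
        (by simpa using hle s i l h3))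
    · exact (min_le_right _ _).trans (rt_mono (k := 1) hepos (hA0 s j l h2) h
        (by simpa using hle s i l h3))
  · intro i j hij
    rw [← rt_sum hepos _ _ (fun s _ => hA0 s i j hij) (by rw [hsum i j hij]; simp),
      hsum i j hij, rt_self hepos]

end Run7.h523.MZ
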