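import Mathlib
import Pool.Agent.Y734.R.Core2
import Pool.Agent.Y734.R.Fin
import Pool.Agent.Y734.R.Fin2
import Pool.Agent.Y734.R.PR.Main
import Pool.Agent.Run7.h523.MZ.Red

/-!
# Integral points of bounded degree of `M_{0,n}`: the theorem with a quadratic bound
-/

set_option autoImplicit false

namespace Run7.h523.MZ

open NumberField Pool.Agent.Y734.M Pool.Agent.Y734.R

theorem numeric {q m r : ℕ} (hr : 2 ≤ r) (hq : 1 ≤ q) (hqr : q ≤ 2 * r)
    (hm : 6 * r ^ 2 + 2 ≤ m + 5 * r) :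
    3 ≤ m ∧ q < m ∧
      ((q : ℝ) - 1) * (3 * q - 2) * (m - 2) + 2 * q * (q - 1) < 2 * m * (m - 2) := by
  have h1 : (2 : ℝ) ≤ r := by exact_mod_cast hr
  have h2 : (1 : ℝ) ≤ q := by exact_mod_cast hq
  have h3 : (q : ℝ) ≤ 2 * r := by exact_mod_cast hqr
  have h4 : 6 * (r : ℝ) ^ 2 + 2 ≤ m + 5 * r := by exact_mod_cast hm
  have h5 : (16 : ℝ) ≤ m := by nlinarith
  have h6 : (q : ℝ) < m := by nlinarith
  refine ⟨by exact_mod_cast (by linarith : (3 : ℝ) ≤ m), by exact_mod_cast h6, ?_⟩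
  have h7 : ((q : ℝ) - 1) * (3 * q - 2) ≤ 2 * (m - 1) := by nlinarith
  have h8 : (q : ℝ) * (q - 1) < m - 2 := by nlinarith
  have h9 : ((q : ℝ) - 1) * (3 * q - 2) * (m - 2) ≤ 2 * (m - 1) * (m - 2) :=
    mul_le_mul_of_nonneg_right h7 (by linarith)
  nlinarith

open Classical in
/-- The multiplicative form. -/
theorem cp6 (q m : ℕ) (hq : 1 ≤ q) (hm3 : 3 ≤ m) (hqm : q < m)
    (hnum : ((q : ℝ) - 1) * (3 * q - 2) * (m - 2) + 2 * q * (q - 1) < 2 * m * (m - 2)) :
    CombP q m := by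
  intro Γ _ δ h0 hsym hult hprod s i j a b hij hab
  have key := group_comb (G := Additive Γˣ) hm3 hq hqm hnum
    (fun s i j => if hij : i ≠ j then Additive.ofMul (Units.mk0 (δ s i j) (h0 s i j hij)) else 0)
    ?_ ?_ ?_ s i j a b hij hab
  · simp only [dif_pos hij, dif_pos hab] at key
    have k2 := Additive.ofMul.injective key
    have k3 := congrArg (fun u : Γˣ => (u : Γ)) k2
    simpa using k3
  · intro s i j
    by_cases hij : i = j
    · subst hij; rfl
    · have hji : j ≠ i := fun h => hij h.symm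
      simp only [dif_pos hij, dif_pos hji, ne_eq]
      congr 1
      exact Units.ext (hsym s i j)
  · intro s i j l hij hjl hil
    simp only [dif_pos hij, dif_pos hjl, dif_pos hil]
    have h1 := hult s i j l
    rcases le_max_iff.mp h1 with h2 | h2
    · exact le_max_of_le_left (Additive.ofMul_le.mpr (Units.val_le_val.mp (by simpa using h2)))
    · exact le_max_of_le_right (Additive.ofMul_le.mpr (Units.val_le_val.mp (by simpa using h2)))
  · intro i j hij
    simp only [dif_pos hij]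
    rw [← ofMul_prod]
    have : (∏ s, Units.mk0 (δ s i j) (h0 s i j hij)) = 1 := by
      apply Units.ext
      rw [Units.coe_prod]
      simpa using hprod i j hij
    rw [this]
    rfl

/-- The finiteness theorem. -/
theorem finiteness6 (r : ℕ) (hr : 2 ≤ r) (k : Type) [Field k] [NumberField k] (S : Finset ℕ)
    (hS : ∀ p ∈ S, p.Prime) (n : ℕ) (hn : 6 * r ^ 2 + 3 ≤ n + 5 * r) :
    (Ps k r n S).Finite := by
  have h3 : 3 ≤ n := by nlinarith
  obtain ⟨n', rfl⟩ : ∃ n', n = n' + 3 := ⟨n - 3, by omega⟩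
  refine PTS.pts k r n' S fun r' h0 hr' => ?_
  have hc : ∀ q, 0 < q → q ≤ 2 * r → CombP q (n' + 2) := by
    intro q hq hqr
    obtain ⟨h1, h2, h4⟩ := numeric (m := n' + 2) hr hq hqr (by omega)
    exact cp6 q (n' + 2) hq h1 h2 h4
  exact core2 h0 (hc r' h0 (by omega)) (hc (r' + r') (by omega) (by omega)) VAL.val PR.prd REL.rel
    (finn2 INT.intg) (TORI.tori (Pool.Agent.Y734.N.TOR.tor Pool.Agent.Y734.N.SG.sg)) PTS.sur k S hS
    1 0 (by simp)

/-- The theorem. -/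
theorem main6 (hmon : MonStmt) (hlowb : LowbStmt) (r : ℕ) (hr : 2 ≤ r) :
    (∀ (k : Type) [Field k] [NumberField k], ∃ m : ℕ, 2 * r + 3 ≤ m ∧
      m + 5 * r ≤ 6 * r ^ 2 + 3 ∧ ∀ n, 4 ≤ n →
        ((∀ S : Finset ℕ, (∀ p ∈ S, p.Prime) → (Ps k r n S).Finite) ↔ m ≤ n)) ∧
    ∃ (k : Type) (_ : Field k) (_ : NumberField k) (S : Finset ℕ), (∀ p ∈ S, p.Prime) ∧
      (Ps k r (4 * r - 2) S).Infinite := by
  refine ⟨fun k _ _ => ?_, hlowb r hr⟩
  have h4 : 5 * r + 9 ≤ 6 * r ^ 2 + 3 := by nlinarith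
  obtain ⟨S, hS, hinf⟩ := LOW.lowc k r hr
  obtain ⟨m, h1, h2, h3⟩ := exists_threshold
    (Q := fun n => ∀ S : Finset ℕ, (∀ p ∈ S, p.Prime) → (Ps k r n S).Finite)
    (a := 2 * r + 2) (b := 6 * r ^ 2 + 3 - 5 * r)
    (fun n hn hq S hS => hmon k r n S hn (hq S hS)) (by omega)
    (fun h => hinf (h S hS)) (fun n hn S hS => finiteness6 r hr k S hS n (by omega))
  exact ⟨m, by omega, by omega, h3⟩

end Run7.h523.MZ
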